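import Pool.Agent.H84.FK.Targets

/-! # Module T3: the maximal subgroup containing `A` meets `B` -/

set_option autoImplicit false

namespace Pool.Agent.H91.FK.T3

open Pool.Agent.H84.FK

variable {G : Type} [Group G]

/-- a Sylow subgroup of a subgroup which contains its normalizer is a Sylow subgroup -/
theorem sylow_up [Finite G] {p : ℕ} (hp : p.Prime) (A : Subgroup G) (P : Sylow p A)
    (hN : ∀ g : G, (∀ x ∈ (P : Subgroup A).map A.subtype,
      g * x * g⁻¹ ∈ (P : Subgroup A).map A.subtype) → g ∈ A) :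
    ¬ p ∣ ((P : Subgroup A).map A.subtype).index := by
  have : Fact p.Prime := ⟨hp⟩
  set X : Subgroup G := (P : Subgroup A).map A.subtype with hX
  have hXp : IsPGroup p X := P.2.map A.subtype
  obtain ⟨S, hS⟩ := hXp.exists_le_sylow
  have hSA : ∀ x : G, x ∈ (S : Subgroup G) → x ∈ A → x ∈ X := by
    have h1 : IsPGroup p ((S : Subgroup G).subgroupOf A) := S.2.comap_of_injective A.subtype
      A.subtype_injective
    have h2 : (P : Subgroup A) ≤ (S : Subgroup G).subgroupOf A := by
      intro x hx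
      exact hS (Subgroup.mem_map_of_mem A.subtype hx)
    have h3 := P.is_maximal' h1 h2
    intro x hx hxA
    have h4 : (⟨x, hxA⟩ : A) ∈ (S : Subgroup G).subgroupOf A := hx
    rw [h3] at h4
    exact Subgroup.mem_map_of_mem A.subtype h4
  have hXS : X = (S : Subgroup G) := by
    by_contra hne
    have : Group.IsNilpotent (S : Subgroup G) := S.2.isNilpotent
    have hnc : NormalizerCondition (S : Subgroup G) := Group.normalizerCondition_of_isNilpotent
    have hlt : X.subgroupOf (S : Subgroup G) < ⊤ := by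
      rw [lt_top_iff_ne_top, Ne, Subgroup.subgroupOf_eq_top]
      exact fun h => hne (le_antisymm hS h)
    obtain ⟨s, hs1, hs2⟩ := SetLike.exists_of_lt (hnc _ hlt)
    apply hs2
    have hsA : (s : G) ∈ A := by
      apply hN
      intro x hx
      have h5 := (Subgroup.mem_normalizer_iff.1 hs1 ⟨x, hS hx⟩).1 hx
      exact h5
    exact hSA s s.2 hsA
  rw [hXS]
  exact S.not_dvd_index

theorem pf_t3 (hBUR : T_BUR) (hC4 : T_C4) (hS2 : T_S2) : T_T3 := by
  intro G _ A B B0 M hC hM hMB
  have hfin : Finite G := hC.fin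
  -- `M = A`
  have hMA : ∀ x ∈ M, x ∈ A := by
    intro x hx
    obtain ⟨a, ha, b, hb, rfl⟩ := hC.fac x
    have hbM : b ∈ M := by
      have := M.mul_mem (M.inv_mem (hM.le ha)) hx
      rwa [inv_mul_cancel_left] at this
    rw [hMB b hbM hb, mul_one]
    exact ha
  obtain ⟨-, hcB, hcG⟩ := hC4 G A B B0 hC
  have hcG' : Nat.card G = Nat.card A * Nat.card B := by
    rw [hcG, hcB]; ring
  -- `A ≠ ⊥`
  have hA1 : Nat.card A ≠ 1 := by
    intro h
    have hAb : A = ⊥ := Subgroup.card_eq_one.1 h
    have hBt : ∀ x : G, x ∈ B := by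
      intro x
      obtain ⟨a, ha, b, hb, rfl⟩ := hC.fac x
      rw [hAb, Subgroup.mem_bot] at ha
      rw [ha, one_mul]
      exact hb
    exact hC.ns (hS2 G B0 hC.abB fun x y hx hy => hC.two.2 x (hBt x) y (hBt y) hx hy)
  obtain ⟨p, hp, hpA⟩ := Nat.exists_prime_and_dvd hA1
  have : Fact p.Prime := ⟨hp⟩
  obtain ⟨P⟩ : Nonempty (Sylow p A) := inferInstance
  set X : Subgroup G := (P : Subgroup A).map A.subtype with hX
  have hXA : ∀ x ∈ X, x ∈ A := by
    rintro x ⟨y, -, rfl⟩
    exact y.2
  have hXcard : Nat.card X = Nat.card (P : Subgroup A) :=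
    Subgroup.card_map_of_injective A.subtype_injective
  have hXne : X ≠ ⊥ := by
    intro h
    have h1 : p ∣ Nat.card X := by
      rw [hXcard]
      exact P.dvd_card_of_dvd_card hpA
    rw [h, Subgroup.card_bot] at h1
    exact hp.one_lt.ne' (Nat.dvd_one.1 h1)
  have hXab : ∀ x ∈ X, ∀ y ∈ X, x * y = y * x := fun x hx y hy => hC.abA x (hXA x hx) y (hXA y hy)
  have hN : ∀ g : G, (∀ x ∈ X, g * x * g⁻¹ ∈ X) → g ∈ A := by
    intro g hg
    apply hMA
    have h1 : g ∈ Subgroup.normalizer (X : Set G) := Subgroup.mem_normalizer_fintype hg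
    refine hM.max (Subgroup.normalizer (X : Set G)) ?_ ?_ h1
    · intro a ha
      refine Subgroup.mem_normalizer_fintype fun x hx => ?_
      rw [hC.abA a ha x (hXA x hx), mul_inv_cancel_right]
      exact hx
    · intro h
      have hnorm : X.Normal := Subgroup.normalizer_eq_top_iff.1 h
      refine hXne (hC.quo X hnorm ?_)
      exact Group.isSolvable_of_comm fun a b => Subtype.ext (hXab a a.2 b b.2)
  have hXi : ¬ p ∣ X.index := sylow_up hp A P hN
  have hpB : ¬ p ∣ Nat.card B := by
    intro h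
    apply hXi
    have h1 : Nat.card X * X.index = Nat.card A * Nat.card B := by
      rw [← hcG', Subgroup.card_mul_index]
    have h2 : Nat.card A = Nat.card X * (P : Subgroup A).index := by
      rw [hXcard, Subgroup.card_mul_index]
    rw [h2, mul_assoc] at h1
    rw [Nat.eq_of_mul_eq_mul_left Nat.card_pos h1]
    exact Dvd.dvd.mul_left h _
  obtain ⟨K, hKn, hK1, hK2⟩ := hBUR G p hp X (P.2.map A.subtype) hXi
    fun g hg x hx => hC.abA g (hN g hg) x (hXA x hx)
  have hBK : ∀ b ∈ B, b ∈ K := by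
    intro b hb
    apply hK1
    intro h
    exact hpB (h.trans (by
      have := orderOf_dvd_natCard (⟨b, hb⟩ : B)
      rwa [Subgroup.orderOf_mk] at this))
  have hKt : K ≠ ⊤ := by
    intro h
    apply hXne
    rw [eq_bot_iff]
    intro x hx
    rw [Subgroup.mem_bot]
    exact hK2 x hx (by rw [h]; exact Subgroup.mem_top x)
  have hKs : Group.IsSolvable K := by
    refine hC.sub K hKt fun g hg => ?_
    obtain ⟨a, ha, b, hb, rfl⟩ := hC.fac g
    refine ⟨a, ha, ?_, b, hb, hBK b hb, rfl⟩
    have := K.mul_mem hg (K.inv_mem (hBK b hb))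
    rwa [mul_inv_cancel_right] at this
  have hKb : K = ⊥ := hC.quo K hKn hKs
  have hBb : B = ⊥ := by
    rw [eq_bot_iff]
    intro b hb
    rw [← hKb]
    exact hBK b hb
  rw [hBb, Subgroup.card_bot] at hcB
  omega

end Pool.Agent.H91.FK.T3
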